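import Pool.Agent.H54.GN.Lb
import Pool.Agent.H71.GEN.Lip

/-!
# Chains of two-sided labels

A chain is a list of coordinates `c 0, …, c (r - 1)`. The label of `c i` is a polynomial in the
time and in the coordinates `c l`, `l < i`. Each label has two sides: a polynomial which is a
function of the exact point, and a polynomial which is a function of the line and of the window of
length `2 ^ (-w)`; they agree on the natural box with the time radius `2 ^ (-a)` and the sides
`2 ^ (-g l)`, `l < i`, around the labels of the coordinates before `i`. Balls are the case `a = w`.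
Each label has its own class `K i`; the derivative of the visible polynomial of `c i` in the
direction of `c l` is at most `2 ^ (e + max (g l, …, g i) - g i)` on the natural box.
-/

set_option autoImplicit false

namespace Pool.GEN

open Finset Real MvPolynomial
open Pool.Agent.H49.Ent Pool.Agent.H32.Dense Pool.STK Pool.KA Pool.KSAT Pool.K2S Pool.PB Pool.S6C

variable {m J : ℕ}

/-- The polynomial depends on the time and on the coordinates `c l`, `l < i`, only. -/
def DepC (c : ℕ → Fin m) (i : ℕ) (G : MvPolynomial (Option (Fin m)) ℝ) : Prop :=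
  ∀ b b' : Option (Fin m) → ℝ, b none = b' none → (∀ l < i, b (some (c l)) = b' (some (c l))) →
    eval b G = eval b' G

/-- **The natural box** over the system `G`: time radius `2 ^ (-a)`, sides `2 ^ (-g l)`, for the
coordinates `c l`, `l < i`. -/
def NBx (c : ℕ → Fin m) (G : ℕ → MvPolynomial (Option (Fin m)) ℝ) (g : ℕ → ℕ) (a : ℕ) (t : ℝ)
    (i : ℕ) (b : Option (Fin m) → ℝ) : Prop :=
  |b none - t| ≤ 1 / 2 ^ a ∧ ∀ l < i, |b (some (c l)) - eval b (G l)| ≤ 1 / 2 ^ g l

/-- The natural exponent of the derivative of the label of `c i` in the direction of `c l`. -/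
def nlp (g : ℕ → ℕ) (l i : ℕ) : ℕ := (Finset.Icc l i).sup g - g i

/-- **The conditions for a chain of two-sided labels**, `r` coordinates: classes `K i`, radius
`2 ^ (-a)`, windows `2 ^ (-w)`, gradients at most `2 ^ e` in natural units, precisions
`2 ^ (-g i)`. -/
structure ChOK (F : Fam m J) (c : ℕ → Fin m) (r : ℕ) (K : ℕ → ℕ) (a w e : ℕ) (g : ℕ → ℕ)
    (A : F.Ω → Prop) (G : PtT F → ℕ → MvPolynomial (Option (Fin m)) ℝ)
    (H : LnT F → ℕ → MvPolynomial (Option (Fin m)) ℝ) : Prop where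
  degG : ∀ y i, (G y i).totalDegree ≤ K i
  degH : ∀ s i, (H s i).totalDegree ≤ K i
  depG : ∀ y i, DepC c i (G y i)
  depH : ∀ s i, DepC c i (H s i)
  pos : ∀ ω, A ω → ∀ i < r, |F.x ω (c i) - eval (bt F ω) (G (ptr F J ω) i)| ≤ 1 / 2 ^ g i
  agr : ∀ ω, A ω → ∀ i < r, ∀ b : Option (Fin m) → ℝ, NBx c (G (ptr F J ω)) g a (F.t ω) i b →
    |eval b (G (ptr F J ω) i) - eval b (H (slam F w ω) i)| ≤ 1 / 2 ^ g i
  lip : ∀ ω, A ω → ∀ i < r, ∀ b : Option (Fin m) → ℝ, NBx c (G (ptr F J ω)) g a (F.t ω) i b →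
    ∀ l < i, |eval b (pderiv (some (c l)) (G (ptr F J ω) i))| ≤ 2 ^ (e + nlp g l i)

/-- **Chains of two-sided labels**, with natural exponents. -/
def ChN (F : Fam m J) (c : ℕ → Fin m) (r : ℕ) (K : ℕ → ℕ) (a w e : ℕ) (g : ℕ → ℕ)
    (A : F.Ω → Prop) : Prop :=
  ∃ (G : PtT F → ℕ → MvPolynomial (Option (Fin m)) ℝ)
    (H : LnT F → ℕ → MvPolynomial (Option (Fin m)) ℝ), ChOK F c r K a w e g A G H

/-- **Chains of two-sided labels**, with real exponents, in units of `J`. -/
def Chn (c : ℕ → Fin m) (r : ℕ) (K : ℕ → ℕ) (a w e : ℝ) (g : ℕ → ℝ) : Stat m := fun J F A =>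
  ChN F c r K ⌊a * J⌋₊ ⌊w * J⌋₊ ⌊e * J⌋₊ (fun i => ⌊g i * J⌋₊) A

/-! ### Monotonicity -/

theorem DepC.mono {c : ℕ → Fin m} {i i' : ℕ} {G : MvPolynomial (Option (Fin m)) ℝ}
    (h : DepC c i G) (hi : i ≤ i') : DepC c i' G :=
  fun b b' hn hb => h b b' hn fun l hl => hb l (hl.trans_le hi)

/-- The derivatives depend on the same coordinates. -/
theorem DepC.pderiv {c : ℕ → Fin m} {i : ℕ} {G : MvPolynomial (Option (Fin m)) ℝ}
    (h : DepC c i G) (l : ℕ) : DepC c i (MvPolynomial.pderiv (some (c l)) G) := by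
  classical
  intro b b' hn hb
  obtain ⟨g, hg⟩ : ∃ g : (Option (Fin m) → ℝ) → Option (Fin m) → Polynomial ℝ, g = fun b j =>
      Polynomial.C (b j) + Polynomial.C (if j = some (c l) then 1 else 0) * Polynomial.X :=
    ⟨_, rfl⟩
  have hge : ∀ (b : Option (Fin m) → ℝ) (Q : MvPolynomial (Option (Fin m)) ℝ) (t : ℝ),
      (MvPolynomial.aeval (g b) Q).eval t =
        MvPolynomial.eval (fun j => b j + (if j = some (c l) then 1 else 0) * t) Q := by
    intro b Q t
    rw [Pool.KBX.eval_aeval_poly]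
    congr 1
    congr 1
    funext j
    rw [hg]
    simp only [Polynomial.eval_add, Polynomial.eval_mul, Polynomial.eval_C, Polynomial.eval_X]
  have hd : ∀ b : Option (Fin m) → ℝ,
      (Polynomial.derivative (MvPolynomial.aeval (g b) G)).eval 0 =
        eval b (MvPolynomial.pderiv (some (c l)) G) := by
    intro b
    rw [der_aevalσ, Polynomial.eval_finsetSum, Finset.sum_eq_single (some (c l))]
    · rw [Polynomial.eval_mul, hge]
      rw [hg]
      simp
    · intro j _ hj
      rw [Polynomial.eval_mul, hg]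
      simp [hj]
    · intro h'
      exact absurd (Finset.mem_univ _) h'
  have e : MvPolynomial.aeval (g b) G = MvPolynomial.aeval (g b') G := by
    refine Polynomial.funext fun t => ?_
    rw [hge, hge]
    refine h _ _ ?_ fun k hk => ?_
    · rw [hn]
    · show b (some (c k)) + _ = b' (some (c k)) + _
      rw [hb k hk]
  rw [← hd, ← hd, e]

/-- Smaller radii. -/
theorem NBx.mono {c : ℕ → Fin m} {G : ℕ → MvPolynomial (Option (Fin m)) ℝ} {g : ℕ → ℕ}
    {a a' i i' : ℕ} {t : ℝ} {b : Option (Fin m) → ℝ} (h : NBx c G g a' t i' b) (ha : a ≤ a')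
    (hi : i ≤ i') : NBx c G g a t i b :=
  ⟨h.1.trans (inv_mono ha), fun l hl => h.2 l (hl.trans_le hi)⟩

/-- The sample is in its box. -/
theorem ChOK.self {F : Fam m J} {c : ℕ → Fin m} {r : ℕ} {K : ℕ → ℕ} {a w e : ℕ} {g : ℕ → ℕ}
    {A : F.Ω → Prop} {G : PtT F → ℕ → MvPolynomial (Option (Fin m)) ℝ}
    {H : LnT F → ℕ → MvPolynomial (Option (Fin m)) ℝ} (h : ChOK F c r K a w e g A G H)
    {ω : F.Ω} (hω : A ω) {i : ℕ} (hi : i ≤ r) :
    NBx c (G (ptr F J ω)) g a (F.t ω) i (bt F ω) := by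
  refine ⟨?_, fun l hl => h.pos ω hω l (hl.trans_le hi)⟩
  show |F.t ω - F.t ω| ≤ _
  rw [sub_self, abs_zero]
  positivity

theorem ChOK.sub {F : Fam m J} {c : ℕ → Fin m} {r : ℕ} {K : ℕ → ℕ} {a w e : ℕ} {g : ℕ → ℕ}
    {A B : F.Ω → Prop} {G : PtT F → ℕ → MvPolynomial (Option (Fin m)) ℝ}
    {H : LnT F → ℕ → MvPolynomial (Option (Fin m)) ℝ} (h : ChOK F c r K a w e g A G H)
    (hB : Sub B A) : ChOK F c r K a w e g B G H :=
  ⟨h.degG, h.degH, h.depG, h.depH, fun ω hω => h.pos ω (hB ω hω), fun ω hω => h.agr ω (hB ω hω),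
    fun ω hω => h.lip ω (hB ω hω)⟩

theorem ChN.hered (F : Fam m J) (c : ℕ → Fin m) (r : ℕ) (K : ℕ → ℕ) (a w e : ℕ) (g : ℕ → ℕ) :
    Hered (ChN F c r K a w e g) := by
  rintro A B hB ⟨G, H, h⟩
  exact ⟨G, H, h.sub hB⟩

theorem Chn.hered (c : ℕ → Fin m) (r : ℕ) (K : ℕ → ℕ) (a w e : ℝ) (g : ℕ → ℝ) (J : ℕ)
    (F : Fam m J) : Hered (Chn c r K a w e g J F) := ChN.hered F c r K _ _ _ _

/-- Larger classes, smaller radii, shorter chains, larger gradients; the same sides. -/
theorem ChOK.mono {F : Fam m J} {c : ℕ → Fin m} {r r' : ℕ} {K K' : ℕ → ℕ} {a a' w e e' : ℕ}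
    {g : ℕ → ℕ} {A : F.Ω → Prop} {G : PtT F → ℕ → MvPolynomial (Option (Fin m)) ℝ}
    {H : LnT F → ℕ → MvPolynomial (Option (Fin m)) ℝ} (h : ChOK F c r K a w e g A G H)
    (hr : r' ≤ r) (hK : ∀ i, K i ≤ K' i) (ha : a ≤ a') (he : e ≤ e') :
    ChOK F c r' K' a' w e' g A G H :=
  ⟨fun y i => (h.degG y i).trans (hK i), fun s i => (h.degH s i).trans (hK i), h.depG, h.depH,
    fun ω hω i hi => h.pos ω hω i (hi.trans_le hr),
    fun ω hω i hi b hb => h.agr ω hω i (hi.trans_le hr) b (hb.mono ha le_rfl),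
    fun ω hω i hi b hb l hl => (h.lip ω hω i (hi.trans_le hr) b (hb.mono ha le_rfl) l hl).trans
      (pow_le_pow_right₀ (by norm_num) (Nat.add_le_add_right he _))⟩

/-- The sides only matter for the coordinates of the chain, and the precision of the last
coordinate may be decreased. -/
theorem ChOK.last {F : Fam m J} {c : ℕ → Fin m} {r : ℕ} {K : ℕ → ℕ} {a w e : ℕ} {g g' : ℕ → ℕ}
    {A : F.Ω → Prop} {G : PtT F → ℕ → MvPolynomial (Option (Fin m)) ℝ}
    {H : LnT F → ℕ → MvPolynomial (Option (Fin m)) ℝ} (h : ChOK F c r K a w e g A G H)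
    (h1 : ∀ i, i + 1 < r → g' i = g i) (h2 : ∀ i, i + 1 = r → g' i ≤ g i) :
    ChOK F c r K a w e g' A G H := by
  have key : ∀ i < r, g' i ≤ g i := by
    intro i hi
    rcases Nat.lt_or_ge (i + 1) r with hi' | hi'
    · exact (h1 i hi').le
    · exact h2 i (by omega)
  have hbx : ∀ ω, ∀ i < r, ∀ b : Option (Fin m) → ℝ, NBx c (G (ptr F J ω)) g' a (F.t ω) i b →
      NBx c (G (ptr F J ω)) g a (F.t ω) i b := fun ω i hi b hb =>
    ⟨hb.1, fun l hl => by rw [← h1 l (by omega)]; exact hb.2 l hl⟩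
  have hn : ∀ i < r, ∀ l < i, nlp g l i ≤ nlp g' l i := by
    intro i hi l hl
    unfold nlp
    have h3 := key i hi
    have h4 : (Finset.Icc l i).sup g ≤ max ((Finset.Icc l i).sup g') (g i) := by
      refine Finset.sup_le fun j hj => ?_
      rw [Finset.mem_Icc] at hj
      rcases Nat.lt_or_ge j i with h5 | h5
      · rw [← h1 j (by omega)]
        exact (Finset.le_sup (f := g') (Finset.mem_Icc.2 ⟨hj.1, hj.2⟩)).trans (le_max_left _ _)
      · rw [show j = i by omega]
        exact le_max_right _ _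
    omega
  exact ⟨h.degG, h.degH, h.depG, h.depH, fun ω hω i hi => (h.pos ω hω i hi).trans
    (inv_mono (key i hi)), fun ω hω i hi b hb => (h.agr ω hω i hi b (hbx ω i hi b hb)).trans
    (inv_mono (key i hi)), fun ω hω i hi b hb l hl => (h.lip ω hω i hi b (hbx ω i hi b hb) l
      hl).trans (pow_le_pow_right₀ (by norm_num) (Nat.add_le_add_left (hn i hi l hl) _))⟩

/-- The classes beyond the chain do not matter. -/
theorem ChN.cls {F : Fam m J} {c : ℕ → Fin m} {r : ℕ} {K K' : ℕ → ℕ} {a w e : ℕ} {g : ℕ → ℕ}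
    {A : F.Ω → Prop} (h : ChN F c r K a w e g A) (hK : ∀ i < r, K i ≤ K' i) :
    ChN F c r K' a w e g A := by
  obtain ⟨G, H, h⟩ := h
  have d0 : ∀ i : ℕ, DepC c i (0 : MvPolynomial (Option (Fin m)) ℝ) := by
    intro i b b' _ _
    rw [map_zero, map_zero]
  have hb : ∀ {y : PtT F} {t : ℝ} {i : ℕ} {b : Option (Fin m) → ℝ}, i < r →
      NBx c (fun l => if l < r then G y l else 0) g a t i b → NBx c (G y) g a t i b := by
    intro y t i b hi hb
    refine ⟨hb.1, fun l hl => ?_⟩
    have h1 := hb.2 l hl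
    simp only [if_pos (hl.trans hi)] at h1
    exact h1
  refine ⟨fun y i => if i < r then G y i else 0, fun s i => if i < r then H s i else 0,
    fun y i => ?_, fun s i => ?_, fun y i => ?_, fun s i => ?_, fun ω hω i hi => ?_,
    fun ω hω i hi b hbx => ?_, fun ω hω i hi b hbx l hl => ?_⟩
  · split_ifs with hi
    · exact (h.degG y i).trans (hK i hi)
    · rw [totalDegree_zero]
      exact Nat.zero_le _
  · split_ifs with hi
    · exact (h.degH s i).trans (hK i hi)
    · rw [totalDegree_zero]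
      exact Nat.zero_le _
  · split_ifs with hi
    · exact h.depG y i
    · exact d0 i
  · split_ifs with hi
    · exact h.depH s i
    · exact d0 i
  · rw [if_pos hi]
    exact h.pos ω hω i hi
  · rw [if_pos hi, if_pos hi]
    exact h.agr ω hω i hi b (hb hi hbx)
  · rw [if_pos hi]
    exact h.lip ω hω i hi b (hb hi hbx) l hl

/-- Shorter windows. -/
theorem ChN.win {F : Fam m J} {c : ℕ → Fin m} {r : ℕ} {K : ℕ → ℕ} {a w w' e : ℕ} {g : ℕ → ℕ}
    {A : F.Ω → Prop} (h : ChN F c r K a w e g A) (hw : w ≤ w') (hw' : w' ≤ J) :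
    ChN F c r K a w' e g A := by
  obtain ⟨G, H, h⟩ := h
  refine ⟨G, fun s => H (s.1, s.2.1, s.2.2 / 2 ^ (w' - w)), h.degG, fun s i => h.degH _ i, h.depG,
    fun s i => h.depH _ i, h.pos, fun ω hω i hi b hb => ?_, h.lip⟩
  have e := slam_coarse F hw hw' ω
  show |eval b (G (ptr F J ω) i) - eval b (H ((slam F w' ω).1, (slam F w' ω).2.1,
    (slam F w' ω).2.2 / 2 ^ (w' - w)) i)| ≤ _
  rw [← e]
  exact h.agr ω hω i hi b hb

/-- **All monotonicities**, for fixed sides. -/
theorem ChN.mono {F : Fam m J} {c : ℕ → Fin m} {r r' : ℕ} {K K' : ℕ → ℕ} {a a' w w' e e' : ℕ}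
    {g : ℕ → ℕ} {A : F.Ω → Prop} (h : ChN F c r K a w e g A) (hr : r' ≤ r)
    (hK : ∀ i < r', K i ≤ K' i) (ha : a ≤ a') (hw : w ≤ w') (hw' : w' ≤ J) (he : e ≤ e') :
    ChN F c r' K' a' w' e' g A := by
  obtain ⟨G, H, h⟩ := h
  exact ChN.cls (ChN.win ⟨G, H, h.mono hr (fun _ => le_rfl) ha he⟩ hw hw') hK

theorem ChN.last {F : Fam m J} {c : ℕ → Fin m} {r : ℕ} {K : ℕ → ℕ} {a w e : ℕ} {g g' : ℕ → ℕ}
    {A : F.Ω → Prop} (h : ChN F c r K a w e g A) (h1 : ∀ i, i + 1 < r → g' i = g i)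
    (h2 : ∀ i, i + 1 = r → g' i ≤ g i) : ChN F c r K a w e g' A := by
  obtain ⟨G, H, h⟩ := h
  exact ⟨G, H, h.last h1 h2⟩

theorem Chn.mono {c : ℕ → Fin m} {r r' : ℕ} {K K' : ℕ → ℕ} {a a' w w' e e' : ℝ} {g : ℕ → ℝ}
    {J : ℕ} {F : Fam m J} {A : F.Ω → Prop} (h : Chn c r K a w e g J F A) (hr : r' ≤ r)
    (hK : ∀ i < r', K i ≤ K' i) (ha : a ≤ a') (hw : w ≤ w') (hw' : w' ≤ 1) (he : e ≤ e') :
    Chn c r' K' a' w' e' g J F A := by
  have hJ : (0 : ℝ) ≤ J := Nat.cast_nonneg J
  refine ChN.mono h hr hK (Nat.floor_le_floor (mul_le_mul_of_nonneg_right ha hJ))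
    (Nat.floor_le_floor (mul_le_mul_of_nonneg_right hw hJ)) (Nat.floor_le_of_le ?_)
    (Nat.floor_le_floor (mul_le_mul_of_nonneg_right he hJ))
  calc w' * (J : ℝ) ≤ 1 * J := mul_le_mul_of_nonneg_right hw' hJ
    _ = J := one_mul _

theorem Chn.last {c : ℕ → Fin m} {r : ℕ} {K : ℕ → ℕ} {a w e : ℝ} {g g' : ℕ → ℝ} {J : ℕ}
    {F : Fam m J} {A : F.Ω → Prop} (h : Chn c r K a w e g J F A)
    (h1 : ∀ i, i + 1 < r → g' i = g i) (h2 : ∀ i, i + 1 = r → g' i ≤ g i) :
    Chn c r K a w e g' J F A := by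
  refine ChN.last h (fun i hi => ?_) fun i hi => ?_
  · rw [h1 i hi]
  · exact Nat.floor_le_floor (mul_le_mul_of_nonneg_right (h2 i hi) (Nat.cast_nonneg J))

/-! ### Closed labels are chains -/

/-- The coordinates in a natural box which is small against the balls of the gradients. -/
theorem nbx_near {c : ℕ → Fin m} {G : ℕ → MvPolynomial (Option (Fin m)) ℝ}
    {x b : Option (Fin m) → ℝ} {r e ρ M N : ℕ} (hN : e + m + 3 ≤ N) (hM : ρ + N * r ≤ M)
    (hdep : ∀ i < r, DepC c i (G i))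
    (hlip : ∀ i < r, ∀ y : Option (Fin m) → ℝ, (∀ o, |y o - x o| ≤ 1 / 2 ^ ρ) → ∀ o,
      |eval y (pderiv o (G i))| ≤ 2 ^ e)
    (hx : ∀ i < r, |x (some (c i)) - eval x (G i)| ≤ 1 / 2 ^ M) (ha : |b none - x none| ≤ 1 / 2 ^ M)
    (hb : ∀ i < r, |b (some (c i)) - eval b (G i)| ≤ 1 / 2 ^ M) :
    ∀ i < r, |b (some (c i)) - x (some (c i))| ≤ 2 ^ (N * (i + 1)) / 2 ^ M := by
  classical
  intro i
  induction i using Nat.strong_induction_on with
  | _ i ih =>
    intro hi
    obtain ⟨y, hy⟩ : ∃ y : Option (Fin m) → ℝ, y = fun o => match o with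
        | none => b none
        | some k => if ∃ l < i, c l = k then b (some k) else x (some k) := ⟨_, rfl⟩
    have hyn : y none = b none := by rw [hy]
    have hyl : ∀ l < i, y (some (c l)) = b (some (c l)) := by
      intro l hl
      rw [hy]
      exact if_pos ⟨l, hl, rfl⟩
    have hM0 : (0 : ℝ) < 2 ^ M := by positivity
    have h1i : (1 : ℝ) ≤ 2 ^ (N * i) := one_le_pow₀ (by norm_num)
    have hyd : ∀ o, |y o - x o| ≤ 2 ^ (N * i) / 2 ^ M := by
      intro o
      cases o with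
      | none =>
        rw [hyn]
        exact ha.trans (div_le_div_of_nonneg_right h1i hM0.le)
      | some k =>
        by_cases hk : ∃ l < i, c l = k
        · obtain ⟨l, hl, rfl⟩ := hk
          rw [hyl l hl]
          refine (ih l hl (hl.trans hi)).trans (div_le_div_of_nonneg_right ?_ hM0.le)
          exact pow_le_pow_right₀ (by norm_num) (Nat.mul_le_mul_left N hl)
        · have : y (some k) = x (some k) := by
            rw [hy]
            exact if_neg hk
          rw [this, sub_self, abs_zero]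
          positivity
    have hρ : (2 : ℝ) ^ (N * i) / 2 ^ M ≤ 1 / 2 ^ ρ := by
      rw [div_le_div_iff₀ hM0 (by positivity), one_mul, ← pow_add]
      refine pow_le_pow_right₀ (by norm_num) ?_
      have : N * i ≤ N * r := Nat.mul_le_mul_left N hi.le
      omega
    have h2 := mvσ (G i) x y (2 ^ e) fun z hz o =>
      hlip i hi z (fun o' => (hz o').trans ((hyd o').trans hρ)) o
    have h3 : ∑ o, |y o - x o| ≤ (m + 1) * (2 ^ (N * i) / 2 ^ M) := by
      refine (Finset.sum_le_sum fun o _ => hyd o).trans (le_of_eq ?_)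
      rw [Finset.sum_const, Finset.card_univ, Fintype.card_option, Fintype.card_fin, nsmul_eq_mul]
      push_cast
      ring
    have h4 : eval y (G i) = eval b (G i) := hdep i hi y b hyn hyl
    rw [h4] at h2
    have h5 := h2.trans (mul_le_mul_of_nonneg_left h3 (by positivity))
    have h6 := hx i hi
    have h7 := hb i hi
    have h8 : |b (some (c i)) - x (some (c i))| ≤
        1 / 2 ^ M + (2 ^ e * ((m + 1) * (2 ^ (N * i) / 2 ^ M)) + 1 / 2 ^ M) := by
      rw [abs_le] at h5 h6 h7 ⊢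
      constructor <;> linarith only [h5.1, h5.2, h6.1, h6.2, h7.1, h7.2]
    refine h8.trans ?_
    have e1 : (1 : ℝ) / 2 ^ M + (2 ^ e * ((m + 1) * (2 ^ (N * i) / 2 ^ M)) + 1 / 2 ^ M) =
        (2 + 2 ^ e * (m + 1) * 2 ^ (N * i)) / 2 ^ M := by ring
    rw [e1]
    refine div_le_div_of_nonneg_right ?_ hM0.le
    have h9 : (m : ℝ) + 1 ≤ 2 ^ m := by
      have := Nat.lt_two_pow_self (n := m)
      exact_mod_cast this
    have h10 : (2 : ℝ) ^ (e + m + 3) * 2 ^ (N * i) ≤ 2 ^ (N * (i + 1)) := by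
      rw [← pow_add]
      refine pow_le_pow_right₀ (by norm_num) ?_
      rw [Nat.mul_succ]
      omega
    refine le_trans ?_ h10
    have e2 : (2 : ℝ) ^ (e + m + 3) = 8 * (2 ^ e * 2 ^ m) := by
      rw [pow_add, pow_add]
      ring
    rw [e2]
    have h11 : (1 : ℝ) ≤ 2 ^ e := one_le_pow₀ (by norm_num)
    have h12 : (1 : ℝ) ≤ 2 ^ m := one_le_pow₀ (by norm_num)
    have h13 : (2 : ℝ) ^ e * (m + 1) ≤ 2 ^ e * 2 ^ m := mul_le_mul_of_nonneg_left h9 (by positivity)
    have h14 : (1 : ℝ) ≤ 2 ^ e * 2 ^ m := by nlinarith only [h11, h12]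
    have h15 : (2 : ℝ) ^ e * (m + 1) * 2 ^ (N * i) ≤ 2 ^ e * 2 ^ m * 2 ^ (N * i) :=
      mul_le_mul_of_nonneg_right h13 (by positivity)
    have h16 : (1 : ℝ) ≤ 2 ^ e * 2 ^ m * 2 ^ (N * i) := by nlinarith only [h14, h1i]
    nlinarith only [h15, h16]

/-- Closed labels of all the coordinates of the chain, over the coordinates before them. The balls
of the gradients must be large against the boxes. -/
theorem ChN.of_lb {F : Fam m J} {c : ℕ → Fin m} {r : ℕ} {K : ℕ → ℕ} {a w ρ e q : ℕ} {g : ℕ → ℕ}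
    {A : F.Ω → Prop} (hq : q ≤ J)
    (h : ∀ i < r, Lb F ((range i).image c) (c i) (K i) e q w ρ (g i) A)
    (ha : ρ + (e + m + 3) * r ≤ a) (hg : ∀ i, i + 1 < r → ρ + (e + m + 3) * r ≤ g i) :
    ChN F c r K a w e g A := by
  classical
  have h' : ∀ i < r, Lb F ((range i).image c) (c i) (K i) e J w ρ (g i) A := fun i hi => by
    obtain ⟨V, z, z', G, h1⟩ := h i hi
    obtain ⟨y, h2⟩ := h1.res hq
    exact ⟨V, y, z', G, h2⟩
  choose V z z' G hG using h'
  have hdep : ∀ i (hi : i < r) v, DepC c i (G i hi v) := by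
    intro i hi v b b' hn hb
    refine (hG i hi).dep _ b b' hn fun k hk => ?_
    obtain ⟨l, hl, rfl⟩ := mem_image.1 hk
    exact hb l (mem_range.1 hl)
  refine ⟨fun y i => if hi : i < r then G i hi (z i hi y) else 0,
    fun s i => if hi : i < r then G i hi (z' i hi s) else 0, fun y i => ?_, fun s i => ?_,
    fun y i => ?_, fun s i => ?_, fun ω hω i hi => ?_, fun ω hω i hi b _ => ?_,
    fun ω hω i hi b hb l hl => ?_⟩
  · split_ifs with hi
    · exact (hG i hi).deg _
    · rw [totalDegree_zero]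
      exact Nat.zero_le _
  · split_ifs with hi
    · exact (hG i hi).deg _
    · rw [totalDegree_zero]
      exact Nat.zero_le _
  · split_ifs with hi
    · exact hdep i hi _
    · intro b b' _ _
      rw [map_zero, map_zero]
  · split_ifs with hi
    · exact hdep i hi _
    · intro b b' _ _
      rw [map_zero, map_zero]
  · rw [dif_pos hi, (hG i hi).cls ω hω]
    exact (hG i hi).pos ω hω
  · rw [dif_pos hi, dif_pos hi, (hG i hi).cls ω hω, sub_self, abs_zero]
    positivity
  · rw [dif_pos hi]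
    have hcls : ∀ j (hj : j < r), G j hj (z j hj (ptr F J ω)) = G j hj (z' j hj (slam F w ω)) :=
      fun j hj => by rw [(hG j hj).cls ω hω]
    have hir : ∀ j, j < i → j < r := fun j hj => hj.trans hi
    have h1 := nbx_near (c := c) (G := fun j => if hj : j < r then
        G j hj (z j hj (ptr F J ω)) else 0) (x := bt F ω) (b := b) (r := i) (e := e) (ρ := ρ)
      (M := ρ + (e + m + 3) * r) (N := e + m + 3) le_rfl
      (Nat.add_le_add_left (Nat.mul_le_mul_left _ hi.le) ρ) (fun j hj => by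
        rw [dif_pos (hir j hj)]
        exact hdep j _ _) (fun j hj y hy o => by
        rw [dif_pos (hir j hj), hcls]
        exact (hG j (hir j hj)).lip ω hω y hy o) (fun j hj => by
        rw [dif_pos (hir j hj), hcls]
        exact ((hG j (hir j hj)).pos ω hω).trans (inv_mono (hg j (by omega))))
      (hb.1.trans (inv_mono ha)) fun j hj => (hb.2 j hj).trans (inv_mono (hg j (by omega)))
    -- the gradient at a modified point
    obtain ⟨y, hy⟩ : ∃ y : Option (Fin m) → ℝ, y = fun o => match o with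
        | none => b none
        | some k => if ∃ l < i, c l = k then b (some k) else bt F ω (some k) := ⟨_, rfl⟩
    have hyn : y none = b none := by rw [hy]
    have hyl : ∀ l < i, y (some (c l)) = b (some (c l)) := by
      intro l hl
      rw [hy]
      exact if_pos ⟨l, hl, rfl⟩
    have hM0 : (0 : ℝ) < 2 ^ (ρ + (e + m + 3) * r) := by positivity
    have hyd : ∀ o, |y o - bt F ω o| ≤ 1 / 2 ^ ρ := by
      intro o
      cases o with
      | none =>
        rw [hyn]
        exact hb.1.trans (inv_mono (by omega))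
      | some k =>
        by_cases hk : ∃ l < i, c l = k
        · obtain ⟨j, hj, rfl⟩ := hk
          rw [hyl j hj]
          refine (h1 j hj).trans ?_
          rw [div_le_div_iff₀ hM0 (by positivity), one_mul, ← pow_add]
          refine pow_le_pow_right₀ (by norm_num) ?_
          have : (e + m + 3) * (j + 1) ≤ (e + m + 3) * r := Nat.mul_le_mul_left _ (by omega)
          omega
        · have : y (some k) = bt F ω (some k) := by
            rw [hy]
            exact if_neg hk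
          rw [this, sub_self, abs_zero]
          positivity
    have h2 : DepC c i (pderiv (some (c l)) (G i hi (z i hi (ptr F J ω)))) :=
      DepC.pderiv (hdep i hi _) l
    rw [← h2 y b hyn hyl, hcls i hi]
    exact ((hG i hi).lip ω hω y hyd _).trans
      (pow_le_pow_right₀ (by norm_num) (Nat.le_add_right _ _))

/-! ### Thresholds -/

/-- **The thresholds of a class along a chain**: the gradients are bounded by the exponent `θ w` on
windows `2 ^ (-w)`. The thresholds are monotone and increase with the radius (`slope`, which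
includes the labels of larger balls), and no chain whose labels before `i` have precisions below the
thresholds (`g l`: arbitrary, also much coarser) has a better label of `c i`. -/
structure ChThr (S : PCl m) (c : ℕ → Fin m) (r : ℕ) (θ : ℝ) (β : ℕ → ℝ → ℝ → ℝ) : Prop where
  low : ∀ i < r, ∀ a w : ℝ, 0 ≤ w → w ≤ a → a ≤ 1 → a ≤ β i a w
  up : ∀ i < r, ∀ a w : ℝ, 0 ≤ w → w ≤ a → a ≤ 1 → β i a w ≤ 1
  mono : ∀ i < r, ∀ a a' w w' : ℝ, 0 ≤ w → w ≤ a → a ≤ a' → w ≤ w' → w' ≤ a' → a' ≤ 1 →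
    β i a w ≤ β i a' w'
  slope : ∀ i < r, ∀ a w v : ℝ, 0 ≤ w → w ≤ a → 0 ≤ v → a + v ≤ 1 →
    min 1 (β i a w + v) ≤ β i (a + v) w
  no : ∀ i < r, ∀ (K : ℕ → ℕ) (a w : ℚ) (e h : ℝ) (g : ℕ → ℝ), 0 ≤ w → w ≤ a → a ≤ 1 →
    e < θ * w → 0 < h → β i a w + h ≤ 1 → (∀ l < i, g l < β l a w) →
      Bas S (fun J F A => ¬ Chn c (i + 1) K a w e
        (fun l => if l = i then β i a w + h else g l) J F A)

/-- Thresholds of a class are thresholds of all subclasses. -/
theorem ChThr.sub {S S' : PCl m} {c : ℕ → Fin m} {r : ℕ} {θ : ℝ} {β : ℕ → ℝ → ℝ → ℝ}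
    (h : ChThr S c r θ β)
    (hs : ∀ (τ : ℝ) (J : ℕ) (F : Fam m J) (A : F.Ω → Prop), S'.St τ J F A → S.St τ J F A) :
    ChThr S' c r θ β where
  low := h.low
  up := h.up
  mono := h.mono
  slope := h.slope
  no := fun i hi K a w e h' g h1 h2 h3 h4 h5 h6 h7 =>
    (h.no i hi K a w e h' g h1 h2 h3 h4 h5 h6 h7).sub hs

end Pool.GEN
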