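import Pool.Agent.H1.GEN.Clx
import Pool.Agent.H1.GEN.Lmt
import Pool.Agent.H2.GEN.ChT
import Pool.Agent.H83.GN.Num
import Pool.Agent.H67.GEN.Tri
import Pool.Agent.H56.ALL.Chain

/-!
# The numbers of the counterexamples

`RateOf S k r`: `r` is the rate of the digits of the coordinate `k` given all the digits of the
other coordinates, the time and the side information. `NumA`: the numbers of a counterexample
(thresholds of all the chain labels, rates of all the coordinates). The local statements are in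
`H1/GEN/One.lean`.
-/

set_option autoImplicit false

namespace Pool.ALL

open Finset Real MvPolynomial
open Pool.Agent.H49.Ent Pool.Agent.H32.Dense Pool.STK Pool.KA Pool.KSAT Pool.K2S Pool.PB Pool.S6C
open Pool.GEN Pool.GEN.N83 Pool.STR
open Pool.LBT (LSys ThrOf)
open scoped NNReal

/-- **The system of labels**: chains of two-sided labels for all lists of coordinates, the
exponents of the gradients are less than `θ`. -/
noncomputable def LbS (n : ℕ) (θ : ℝ) : LSys n := Pool.CHT.chsys n θ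

/-- **The rate of the rows of one coordinate.** -/
structure RateOf {n : ℕ} (S : PCl n) (k : Fin n) (r : ℝ → ℝ) : Prop where
  lip : LipschitzWith 1 r
  mono : Monotone r
  zero : r 0 = 0
  num : ∀ Q : ℝ, 0 ≤ Q → Q ≤ 1 → ∀ h : ℝ, 0 < h → Bas S (fun J F A =>
    |CH (Pool.Agent.H49.Ent.cond F.p A True) (fun ω => F.X ⌊Q * J⌋₊ ω k)
      (fun ω => oth k J F (ptr F J ω)) - r Q * Real.log 2 * J| ≤ h * J)

theorem RateOf.sub {n : ℕ} {S S' : PCl n} {k : Fin n} {r : ℝ → ℝ} (h : RateOf S k r)
    (hs : ∀ (τ : ℝ) (J : ℕ) (F : Fam n J) (A : F.Ω → Prop), S'.St τ J F A → S.St τ J F A) :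
    RateOf S' k r :=
  ⟨h.lip, h.mono, h.zero, fun Q h0 h1 h' hh => (h.num Q h0 h1 h' hh).sub hs⟩

/-- **The numbers of a counterexample with the slack `e`**: thresholds and rates. -/
def NumA {n : ℕ} (θ : ℝ) (s : Fin n → ℝ) (d : ℕ → ℝ) (al : ℝ) (g₀ : ℝ → ℝ) (ρ e : ℝ)
    (P : List (Fin n) × Fin n → ℝ → ℝ → ℝ) (r : Fin n → ℝ → ℝ) : Prop :=
  ∃ S : PCl n, BadX s d al g₀ ρ e S ∧ ThrOf (LbS n θ) S P ∧ ∀ k, RateOf S k (r k)

/-- The chain `0, …, i`: the base is `0, …, i - 1`, the target is `i`. -/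
def chI {n : ℕ} (i : Fin n) : List (Fin n) × Fin n := ((List.finRange n).take i, i)

end Pool.ALL
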